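import Pool.Agent.H361R2.PP.Iface
import Pool.Agent.H898R2.AC5

/-!
helper361's project PP, task PP-COL: collapse of the weight at one or two positions (`Col`) and the
bounds of the coefficients (`Cob`).
-/

set_option autoImplicit false

open Finset

namespace Pool.Agent.H872R2.PPCol

open Pool.Agent.H410R2.AC Pool.Agent.H898R2.AC5 Pool.Agent.H361R2.PP

variable {n : ℕ}

theorem sum_fibre' {B : Finset ℕ} {a₀ : ℕ} (ha₀ : a₀ ∈ B) (c : (Fin n → Option ℕ) → ℝ)
    (x : Fin n → ℕ → ℝ) (τ₀ : Fin n) :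
    ∑ σ ∈ (cfg n B).filter (fun σ => σ τ₀ = some a₀), c σ * term x σ =
      ∑ σ ∈ (cfg n (B.erase a₀)).filter (fun σ => σ τ₀ = none),
        (x τ₀ a₀ * c (Function.update σ τ₀ (some a₀))) * term x σ := by
  classical
  symm
  refine sum_bij' (fun σ _ => Function.update σ τ₀ (some a₀))
    (fun σ _ => Function.update σ τ₀ none) ?_ ?_ ?_ ?_ ?_
  · intro σ hσ
    rw [mem_filter] at hσ ⊢
    exact ⟨update_some_mem ha₀ τ₀ hσ.1, Function.update_self _ _ _⟩
  · intro σ hσ
    rw [mem_filter] at hσ ⊢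
    refine ⟨mem_cfg_erase.2 ⟨update_none_mem τ₀ hσ.1, fun τ h => ?_⟩, Function.update_self _ _ _⟩
    by_cases hτ : τ = τ₀
    · subst hτ
      simp at h
    · rw [Function.update_of_ne hτ] at h
      exact hτ ((mem_cfg.1 hσ.1).2 τ τ₀ a₀ h hσ.2)
  · intro σ hσ
    rw [mem_filter] at hσ
    rw [Function.update_idem, ← hσ.2, Function.update_eq_self]
  · intro σ hσ
    rw [mem_filter] at hσ
    rw [Function.update_idem, ← hσ.2, Function.update_eq_self]
  · intro σ hσ
    rw [mem_filter] at hσ
    have h := prod_update (fun τ o => (match o with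
      | none => 1
      | some a => x τ a : ℝ)) σ τ₀ (some a₀) rfl
    have h2 : Function.update σ τ₀ none = σ := by
      rw [← hσ.2, Function.update_eq_self]
    rw [h2] at h
    have h3 : term x (Function.update σ τ₀ (some a₀)) = x τ₀ a₀ * term x σ := h
    rw [h3]
    ring

/-- general collapse at one position -/
theorem gen {B : Finset ℕ} {a₀ : ℕ} (ha₀ : a₀ ∈ B) (c : (Fin n → Option ℕ) → ℝ)
    (x : Fin n → ℕ → ℝ) :
    WW B c x = WW (B.erase a₀) (fun σ => c σ +
      ∑ τ, (if σ τ = none then x τ a₀ * c (Function.update σ τ (some a₀)) else 0)) x := by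
  unfold WW
  rw [sum_split B a₀]
  have h1 : ∑ τ₀, ∑ σ ∈ (cfg n B).filter (fun σ => σ τ₀ = some a₀), c σ * term x σ =
      ∑ σ ∈ cfg n (B.erase a₀), (∑ τ₀, if σ τ₀ = none then
        x τ₀ a₀ * c (Function.update σ τ₀ (some a₀)) else 0) * term x σ := by
    simp only [sum_fibre' ha₀, sum_filter]
    rw [sum_comm]
    apply sum_congr rfl
    intro σ _
    rw [sum_mul]
    apply sum_congr rfl
    intro τ _
    split_ifs
    · rfl
    · rw [zero_mul]
  rw [h1, ← sum_add_distrib]
  apply sum_congr rfl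
  intro σ _
  ring

theorem empty_update (β : Fin n → ℝ) (σ : Fin n → Option ℕ) (τ₀ : Fin n) (a : ℕ)
    (h : σ τ₀ = none) :
    ∑ τ, (if Function.update σ τ₀ (some a) τ = none then β τ else 0) =
      ∑ τ, (if σ τ = none then β τ else 0) - β τ₀ := by
  rw [← add_sum_erase univ _ (mem_univ τ₀), ← add_sum_erase univ
    (fun τ => if σ τ = none then β τ else 0) (mem_univ τ₀), Function.update_self, if_neg (by simp),
    h, if_pos rfl]
  have : ∑ τ ∈ univ.erase τ₀, (if Function.update σ τ₀ (some a) τ = none then β τ else 0) =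
      ∑ τ ∈ univ.erase τ₀, (if σ τ = none then β τ else 0) := by
    apply sum_congr rfl
    intro τ hτ
    rw [Function.update_of_ne (mem_erase.1 hτ).1]
  rw [this]
  ring

theorem col : Pool.Agent.H361R2.PP.Col := by
  intro t B β x cf
  have one : ∀ a₀ ∈ B, (∀ τ, x τ a₀ = cf a₀ * β τ) →
      WW B (fun _ => 1) x = WW (B.erase a₀) (co1 (cf a₀) β) x := by
    intro a₀ ha₀ hx
    rw [gen ha₀]
    congr 1
    ext σ
    unfold co1
    rw [mul_sum]
    congr 1
    apply sum_congr rfl
    intro τ _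
    split_ifs
    · rw [hx]; ring
    · ring
  refine ⟨one, ?_⟩
  intro a₀ ha₀ b₀ hb₀ hab hx
  rw [one a₀ ha₀ fun τ => (hx τ).1, gen (mem_erase.2 ⟨hab.symm, hb₀⟩)]
  congr 1
  ext σ
  unfold co1 co2
  have h1 : ∀ τ, (if σ τ = none then x τ b₀ * (1 + cf a₀ * ∑ τ', (if Function.update σ τ
      (some b₀) τ' = none then β τ' else 0)) else 0) =
      (cf b₀ * (1 + cf a₀ * ∑ τ', (if σ τ' = none then β τ' else 0))) *
        (if σ τ = none then β τ else 0) -
      (cf a₀ * cf b₀) * (if σ τ = none then β τ ^ 2 else 0) := by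
    intro τ
    split_ifs with h
    · rw [empty_update β σ τ b₀ h, (hx τ).2]
      ring
    · ring
  simp only [h1, sum_sub_distrib, ← mul_sum]
  ring

theorem cob : Pool.Agent.H361R2.PP.Cob := by
  intro t β hβ hs
  have h0 : ∀ σ : Fin t → Option ℕ, 0 ≤ ∑ τ, (if σ τ = none then β τ else 0) ∧
      ∑ τ, (if σ τ = none then β τ else 0) = 1 - coef β σ ∧ 0 ≤ coef β σ ∧
      0 ≤ ∑ τ, (if σ τ = none then β τ ^ 2 else 0) ∧
      ∑ τ, (if σ τ = none then β τ ^ 2 else 0) ≤
        (∑ τ, (if σ τ = none then β τ else 0)) ^ 2 := by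
    intro σ
    refine ⟨sum_nonneg fun τ _ => ?_, ?_, ?_, sum_nonneg fun τ _ => ?_, ?_⟩
    · split_ifs
      · exact hβ τ
      · exact le_rfl
    · unfold coef
      rw [← hs, ← sum_sub_distrib]
      apply sum_congr rfl
      intro τ _
      split_ifs <;> ring
    · unfold coef
      apply sum_nonneg
      intro τ _
      split_ifs
      · exact le_rfl
      · exact hβ τ
    · split_ifs
      · positivity
      · exact le_rfl
    · have h1 : ∀ τ, (if σ τ = none then β τ ^ 2 else 0) = (if σ τ = none then β τ else 0) ^ 2 := by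
        intro τ
        split_ifs <;> ring
      simp only [h1]
      rw [sq (∑ τ, (if σ τ = none then β τ else 0)), sum_mul]
      have h2 : ∀ τ, 0 ≤ (if σ τ = none then β τ else 0) := by
        intro τ
        split_ifs
        · exact hβ τ
        · exact le_rfl
      apply sum_le_sum
      intro τ hτ
      rw [sq]
      exact mul_le_mul_of_nonneg_left
        (single_le_sum (f := fun τ => if σ τ = none then β τ else 0) (fun i _ => h2 i) hτ) (h2 τ)
  refine ⟨fun σ => ?_, fun c hc σ => ?_⟩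
  · obtain ⟨e1, e2, e3, -, -⟩ := h0 σ
    refine ⟨?_, e3, by linarith⟩
    unfold co1
    rw [e2]
    ring
  · obtain ⟨e1, e2, e3, e4, e5⟩ := h0 σ
    unfold co1 co2
    set e := ∑ τ, (if σ τ = none then β τ else 0) with he
    set k := coef β σ
    set s := ∑ τ, (if σ τ = none then β τ ^ 2 else 0)
    have hk : k = 1 - e := by linarith
    have he1 : e ≤ 1 := by linarith
    refine ⟨?_, by positivity, ?_, ?_, ?_⟩
    · rw [hk]
      nlinarith [sq_nonneg (c * (1 - e)), sq_nonneg c, mul_nonneg hc e1]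
    · nlinarith
    · have : 0 ≤ c * c * (e ^ 2 - s) := by
        apply mul_nonneg (mul_nonneg hc hc)
        linarith
      have h2 : 0 ≤ (c + c) * e := by positivity
      linarith
    · have h2 : c * c * (e ^ 2 - s) ≤ c * c := by
        have : e ^ 2 - s ≤ 1 := by nlinarith
        nlinarith [mul_nonneg hc hc]
      nlinarith [mul_nonneg hc (sub_nonneg.2 he1)]

end Pool.Agent.H872R2.PPCol
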